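import Pool.Agent.Helper87.SL.Goals

/-! Packet SL-VAR: the variance of the sample. -/

set_option autoImplicit false

open Finset

namespace Pool.Agent.Helper86.SL

open Pool.Agent.Helper87.SL

/-- The second moment of a sum of independent centred variables. -/
theorem second_moment (A : Finset ℕ) (K : ℕ) (Y : ℕ → ℝ) (hY : ∑ x ∈ A, Y x = 0) :
    ∑ I ∈ Fintype.piFinset (fun _ : Fin K => A), (∑ j, Y (I j)) ^ 2 =
      K * ((A.card : ℝ) ^ (K - 1) * ∑ x ∈ A, Y x ^ 2) := by
  have h1 : ∀ j l : Fin K, ∑ I ∈ Fintype.piFinset (fun _ : Fin K => A), Y (I j) * Y (I l) =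
      if j = l then (A.card : ℝ) ^ (K - 1) * ∑ x ∈ A, Y x ^ 2 else 0 := by
    intro j l
    have h2 : ∀ I : Fin K → ℕ, Y (I j) * Y (I l) =
        ∏ i, ((if i = j then Y (I i) else 1) * (if i = l then Y (I i) else 1)) := by
      intro I
      rw [Finset.prod_mul_distrib, Finset.prod_ite_eq' Finset.univ j (fun i => Y (I i)),
        Finset.prod_ite_eq' Finset.univ l (fun i => Y (I i))]
      simp
    simp only [h2]
    rw [← Finset.prod_univ_sum (fun _ : Fin K => A)
      (fun (i : Fin K) (x : ℕ) => (if i = j then Y x else 1) * (if i = l then Y x else 1))]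
    by_cases hjl : j = l
    · subst hjl
      rw [if_pos rfl]
      have h3 : ∀ i : Fin K, (∑ x ∈ A, (if i = j then Y x else 1) * (if i = j then Y x else 1)) =
          if i = j then ∑ x ∈ A, Y x ^ 2 else (A.card : ℝ) := by
        intro i
        by_cases hi : i = j
        · simp only [if_pos hi]
          exact Finset.sum_congr rfl fun x _ => (pow_two _).symm
        · simp [if_neg hi]
      simp only [h3]
      rw [Finset.prod_ite, Finset.prod_const, Finset.prod_const]
      have h4 : (Finset.univ.filter fun i : Fin K => i = j).card = 1 := by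
        rw [Finset.filter_eq' Finset.univ j]
        simp
      have h5 : (Finset.univ.filter fun i : Fin K => ¬ i = j).card = K - 1 := by
        rw [Finset.filter_not, Finset.card_sdiff_of_subset (Finset.filter_subset _ _), h4]
        simp
      rw [h4, h5]
      ring
    · rw [if_neg hjl]
      refine Finset.prod_eq_zero (Finset.mem_univ j) ?_
      simp only [if_true, if_neg hjl, mul_one]
      exact hY
  have h6 : ∀ I : Fin K → ℕ, (∑ j, Y (I j)) ^ 2 = ∑ j, ∑ l, Y (I j) * Y (I l) := by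
    intro I
    rw [pow_two, Finset.sum_mul_sum]
  simp only [h6]
  rw [Finset.sum_comm]
  have h7 : ∀ j : Fin K, ∑ I ∈ Fintype.piFinset (fun _ : Fin K => A), ∑ l, Y (I j) * Y (I l) =
      (A.card : ℝ) ^ (K - 1) * ∑ x ∈ A, Y x ^ 2 := by
    intro j
    rw [Finset.sum_comm]
    simp only [h1]
    simp
  rw [Finset.sum_congr rfl fun j _ => h7 j]
  simp

theorem rep_eq (A : Finset ℕ) (m : ℕ) :
    (rep A m : ℝ) = ∑ x ∈ A, if x ≤ m ∧ m - x ∈ A then (1 : ℝ) else 0 := by
  unfold rep
  rw [Finset.card_filter, Finset.sum_product]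
  push_cast
  refine Finset.sum_congr rfl fun x hx => ?_
  by_cases h : x ≤ m ∧ m - x ∈ A
  · rw [if_pos h]
    rw [Finset.sum_eq_single (m - x)]
    · rw [if_pos (by omega)]
    · intro y _ hy
      rw [if_neg (by omega)]
    · intro h2
      exact absurd h.2 h2
  · rw [if_neg h]
    refine Finset.sum_eq_zero fun y hy => ?_
    rw [if_neg]
    intro h2
    apply h
    refine ⟨by omega, ?_⟩
    have : m - x = y := by omega
    rw [this]
    exact hy

theorem sum_rep_le (A : Finset ℕ) (M : ℕ) :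
    ∑ m ∈ range M, (rep A m : ℝ) ≤ (A.card : ℝ) ^ 2 := by
  have h1 : ∑ m ∈ range M, rep A m ≤ A.card ^ 2 := by
    unfold rep
    rw [← Finset.card_biUnion]
    · refine (Finset.card_le_card (t := A ×ˢ A) ?_).trans ?_
      · intro p hp
        rw [Finset.mem_biUnion] at hp
        obtain ⟨m, _, h2⟩ := hp
        exact (Finset.mem_filter.mp h2).1
      · rw [Finset.card_product, pow_two]
    · intro m _ m' _ hmm
      rw [Function.onFun, Finset.disjoint_left]
      intro p hp hp'
      have e1 := (Finset.mem_filter.mp hp).2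
      have e2 := (Finset.mem_filter.mp hp').2
      exact hmm (e1.symm.trans e2)
  exact_mod_cast h1

theorem var_one (A : Finset ℕ) (K m : ℕ) (hK : 1 ≤ K) (hA : A.Nonempty) :
    ∑ I ∈ Fintype.piFinset (fun _ : Fin K => A), (smp A I m - rep A m) ^ 2 ≤
      (A.card : ℝ) ^ K * ((A.card : ℝ) / K) * rep A m := by
  have ha : (0 : ℝ) < A.card := by exact_mod_cast Finset.card_pos.mpr hA
  have hK0 : (0 : ℝ) < K := by exact_mod_cast hK
  set X : ℕ → ℝ := fun x => if x ≤ m ∧ m - x ∈ A then (1 : ℝ) else 0 with hX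
  set R : ℝ := (rep A m : ℝ) with hR
  have hXR : ∑ x ∈ A, X x = R := (rep_eq A m).symm
  set Y : ℕ → ℝ := fun x => X x - R / A.card with hYdef
  have hY0 : ∑ x ∈ A, Y x = 0 := by
    simp only [hYdef]
    rw [Finset.sum_sub_distrib, hXR, Finset.sum_const, nsmul_eq_mul]
    field_simp
    ring
  have hXX : ∀ x, X x ^ 2 = X x := by
    intro x
    simp only [hX]
    split_ifs <;> norm_num
  have hY2 : ∑ x ∈ A, Y x ^ 2 ≤ R := by
    have h1 : ∀ x, Y x ^ 2 = X x - 2 * (R / A.card) * X x + (R / A.card) ^ 2 := by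
      intro x
      have h5 : Y x ^ 2 = X x ^ 2 - 2 * (R / A.card) * X x + (R / A.card) ^ 2 := by
        simp only [hYdef]
        ring
      rw [h5, hXX x]
    simp only [h1]
    rw [Finset.sum_add_distrib, Finset.sum_sub_distrib, ← Finset.mul_sum, hXR, Finset.sum_const,
      nsmul_eq_mul]
    have h2 : R - 2 * (R / A.card) * R + A.card * (R / A.card) ^ 2 = R - R ^ 2 / A.card := by
      field_simp
      ring
    rw [h2]
    have : 0 ≤ R ^ 2 / A.card := by positivity
    linarith
  have hsmp : ∀ I : Fin K → ℕ, smp A I m - R = (A.card : ℝ) / K * ∑ j, Y (I j) := by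
    intro I
    unfold smp
    have h3 : (((univ : Finset (Fin K)).filter (fun j => I j ≤ m ∧ m - I j ∈ A)).card : ℝ) =
        ∑ j, X (I j) := by
      rw [Finset.card_filter]
      push_cast
      rfl
    rw [h3]
    simp only [hYdef]
    rw [Finset.sum_sub_distrib, Finset.sum_const, Finset.card_univ, Fintype.card_fin, nsmul_eq_mul]
    field_simp
  simp only [hsmp, mul_pow]
  rw [← Finset.mul_sum, second_moment A K Y hY0]
  obtain ⟨L, rfl⟩ : ∃ L, K = L + 1 := ⟨K - 1, by omega⟩
  rw [Nat.add_sub_cancel]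
  have h4 : ((A.card : ℝ) / ((L + 1 : ℕ) : ℝ)) ^ 2 *
      (((L + 1 : ℕ) : ℝ) * ((A.card : ℝ) ^ L * ∑ x ∈ A, Y x ^ 2)) =
      (A.card : ℝ) ^ (L + 1) * ((A.card : ℝ) / ((L + 1 : ℕ) : ℝ)) * ∑ x ∈ A, Y x ^ 2 := by
    field_simp
    ring
  rw [h4]
  exact mul_le_mul_of_nonneg_left hY2 (by positivity)

theorem gVAR : G_VAR := by
  intro A K M hK hA
  have ha : (0 : ℝ) < A.card := by exact_mod_cast Finset.card_pos.mpr hA
  have hK0 : (0 : ℝ) < K := by exact_mod_cast hK
  rw [Finset.sum_comm]
  calc ∑ m ∈ range M, ∑ I ∈ Fintype.piFinset (fun _ : Fin K => A), (smp A I m - rep A m) ^ 2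
      ≤ ∑ m ∈ range M, (A.card : ℝ) ^ K * ((A.card : ℝ) / K) * rep A m :=
        Finset.sum_le_sum fun m _ => var_one A K m hK hA
    _ = (A.card : ℝ) ^ K * ((A.card : ℝ) / K) * ∑ m ∈ range M, (rep A m : ℝ) := by
        rw [Finset.mul_sum]
    _ ≤ (A.card : ℝ) ^ K * ((A.card : ℝ) / K) * (A.card : ℝ) ^ 2 :=
        mul_le_mul_of_nonneg_left (sum_rep_le A M) (by positivity)
    _ = (A.card : ℝ) ^ K * ((A.card : ℝ) ^ 3 / K) := by ring

end Pool.Agent.Helper86.SL
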